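import Pool.Agent.Q307.Sir.Main

/-!
# A sequentially pseudocompact Boolean group which is not selectively sequentially pseudocompact

The group is a subgroup `G` of `2 ^ I`, where `I` is the set of all one to one sequences in the free
Boolean group of cardinality `𝔠`. It projects onto all countable subproducts, and this makes it
sequentially pseudocompact. The coordinate of a sequence takes both values infinitely often on this
sequence, so that `G` has no convergent sequences of different elements. If the open sets `U_n` are
pairwise disjoint, every choice of points `x_n` in `U_n` is such a sequence.
-/

set_option autoImplicit false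

namespace Pool.Agent.Results.MP_3c9c51_gt.BooleanGroup

open Pool.Agent.Q307.Sir

/-- There is an abelian topological group all of whose elements have order at most two, which is
sequentially pseudocompact but not selectively sequentially pseudocompact. -/
theorem result : ∃ (G : Type) (_ : AddCommGroup G) (_ : TopologicalSpace G)
    (_ : IsTopologicalAddGroup G) (_ : T35Space G), (∀ g : G, g + g = 0) ∧
    SeqPseudocompact G ∧ ¬ SelSeqPseudocompact G := by
  obtain ⟨φ, h1, h2⟩ := exists_phi
  refine ⟨Grp φ, inferInstance, inferInstance, inferInstance, inferInstance, fun g => ?_,
    seqPseudocompact h2, not_selSeqPseudocompact h1 h2⟩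
  apply Subtype.ext
  funext ξ
  show g.1 ξ + g.1 ξ = 0
  exact CharTwo.add_self_eq_zero _

end Pool.Agent.Results.MP_3c9c51_gt.BooleanGroup
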